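import Pool.Agent.Work.MP_bec1e1_FIN_h39.Interface
import Pool.Agent.Work.MP_bec1e1_lv_h99.EXC

/-! # FIN, block EQS (equal service) -/

set_option autoImplicit false

open Filter Topology
open scoped BigOperators

namespace Pool.Agent.LCSV57

open Pool.Agent.LCSE Pool.Agent.LCSV

variable {k : ℕ}

lemma hasDerivAt_Ex {n : ℕ} {f : ℝ → List (Fin k) → ℝ} {f' : List (Fin k) → ℝ} {θ : ℝ}
    (h : ∀ w, HasDerivAt (fun t => f t w) (f' w) θ) :
    HasDerivAt (fun t => Ex k n (f t)) (Ex k n f') θ := by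
  induction n generalizing f f' with
  | zero => exact h []
  | succ n ih =>
    simp only [Ex_succ]
    refine HasDerivAt.div_const ?_ _
    exact HasDerivAt.fun_sum fun c _ => ih fun w => h (c :: w)

/-- derivative of the density `gth` -/
noncomputable def dg (k s : ℕ) (o : Fin k) (w : List (Fin k)) : ℝ :=
  1 - (k : ℝ) ^ s * ind (w = List.replicate s o)

lemma hasDerivAt_gth (s : ℕ) (o : Fin k) (w : List (Fin k)) (θ : ℝ) :
    HasDerivAt (fun t => gth k s o t w) (dg k s o w) θ := by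
  unfold gth dg
  have h1 : HasDerivAt (fun t : ℝ => 1 + t) 1 θ := (hasDerivAt_id θ).const_add 1
  have h2 : HasDerivAt (fun t : ℝ => t * (k : ℝ) ^ s * ind (w = List.replicate s o))
      (1 * (k : ℝ) ^ s * ind (w = List.replicate s o)) θ :=
    ((hasDerivAt_id θ).mul_const _).mul_const _
  have h3 := h1.sub h2
  rw [one_mul] at h3
  exact h3

lemma hasDerivAt_Exc (s : ℕ) (o : Fin k) (T : ℕ) (f : List (List (Fin k)) → ℝ) (θ : ℝ) :
    HasDerivAt (fun t => Exc k s (gth k s o t) T f)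
      (∑ p ∈ Finset.range T, Exc k s (gth k s o θ) p fun l₁ =>
        Exc k s (gth k s o θ) (T - 1 - p) fun l₂ => Ex k s fun w =>
          dg k s o w * f (l₁ ++ w :: l₂)) θ := by
  induction T generalizing f with
  | zero =>
    simp only [Exc_zero, Finset.range_zero, Finset.sum_empty]
    exact hasDerivAt_const _ _
  | succ T ih =>
    have h1 : HasDerivAt (fun t => Exc k s (gth k s o t) (T + 1) f)
        (Ex k s fun w => dg k s o w * (Exc k s (gth k s o θ) T fun l => f (w :: l)) +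
          gth k s o θ w * (∑ p ∈ Finset.range T, Exc k s (gth k s o θ) p fun l₁ =>
            Exc k s (gth k s o θ) (T - 1 - p) fun l₂ => Ex k s fun w' =>
              dg k s o w' * f (w :: (l₁ ++ w' :: l₂)))) θ := by
      simp only [Exc_succ]
      refine hasDerivAt_Ex fun w => ?_
      exact (hasDerivAt_gth s o w θ).mul (ih fun l => f (w :: l))
    have h2 : (Ex k s fun w => dg k s o w * (Exc k s (gth k s o θ) T fun l => f (w :: l)) +
          gth k s o θ w * (∑ p ∈ Finset.range T, Exc k s (gth k s o θ) p fun l₁ =>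
            Exc k s (gth k s o θ) (T - 1 - p) fun l₂ => Ex k s fun w' =>
              dg k s o w' * f (w :: (l₁ ++ w' :: l₂)))) =
        ∑ p ∈ Finset.range (T + 1), Exc k s (gth k s o θ) p fun l₁ =>
          Exc k s (gth k s o θ) (T + 1 - 1 - p) fun l₂ => Ex k s fun w =>
            dg k s o w * f (l₁ ++ w :: l₂) := by
      rw [Finset.sum_range_succ', Ex_add, add_comm]
      congr 1
      · simp only [Finset.mul_sum]
        rw [Ex_finset_sum]
        refine Finset.sum_congr rfl fun p _ => ?_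
        have h3 : T + 1 - 1 - (p + 1) = T - 1 - p := by omega
        rw [Exc_succ, h3]
        refine Ex_congr fun w _ => ?_
        simp only [List.cons_append]
      · rw [Exc_zero]
        simp only [List.nil_append, Nat.add_sub_cancel, Nat.sub_zero]
        rw [← Ex_Exc_comm]
        refine Ex_congr fun w _ => ?_
        rw [Exc_const_mul]
    rw [← h2]
    exact h1

lemma dg_mean (hk : 0 < k) (s : ℕ) (o : Fin k) (f : List (Fin k) → ℝ) :
    (Ex k s fun w => dg k s o w * f w) = Ex k s f - f (List.replicate s o) := by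
  have h1 : (Ex k s fun w => dg k s o w * f w) =
      Ex k s fun w => f w - (k : ℝ) ^ s * (ind (w = List.replicate s o) * f w) :=
    Ex_congr fun w _ => by unfold dg; ring
  rw [h1, Ex_sub, Ex_const_mul]
  have h2 := Ex_ind_eq (k := k) (List.replicate s o) f
  rw [List.length_replicate] at h2
  rw [h2, ← mul_assoc, ← mul_pow, mul_inv_cancel₀ (by positivity), one_pow, one_mul]

lemma isDens_gth (hk : 2 ≤ k) {s : ℕ} (o : Fin k) {θ : ℝ} (h0 : 0 ≤ θ) (h1 : θ ≤ thm k s) :
    IsDens k s (gth k s o θ) where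
  nonneg := by
    intro w _
    unfold gth
    have hks : (0 : ℝ) < (k : ℝ) ^ s := by positivity
    have h2 : θ * (k : ℝ) ^ s ≤ 1 / 2 := by
      have h3 : θ * (k : ℝ) ^ s ≤ thm k s * (k : ℝ) ^ s :=
        mul_le_mul_of_nonneg_right h1 hks.le
      have h4 : thm k s * (k : ℝ) ^ s = 1 / 2 := by
        unfold thm; field_simp
      linarith
    have h5 := ind_le_one (w = List.replicate s o)
    have h6 := ind_nonneg (w = List.replicate s o)
    have h7 : θ * (k : ℝ) ^ s * ind (w = List.replicate s o) ≤ 1 / 2 := by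
      have : 0 ≤ θ * (k : ℝ) ^ s := by positivity
      nlinarith
    linarith
  one := by
    have hk0 : 0 < k := by omega
    have h1 : Ex k s (gth k s o θ) = Ex k s fun w => 1 + θ * (dg k s o w * 1) :=
      Ex_congr fun w _ => by unfold gth dg; ring
    rw [h1, Ex_add, Ex_const_mul, dg_mean hk0 s o (fun _ => 1), Ex_const hk0]
    ring

lemma isDens_gth_thm (hk : 2 ≤ k) (s : ℕ) (o : Fin k) : IsDens k s (gth k s o (thm k s)) :=
  isDens_gth hk o (by unfold thm; positivity) le_rfl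

lemma EN_zero (s : ℕ) (o : Fin k) (N b : ℕ) : EN k s o 0 N b = F k (N * s) b := by
  unfold EN F
  have h1 : Exc k s (gth k s o 0) N (fun xs => Ex k b fun y => (L xs.flatten y : ℝ)) =
      Exs k s N fun xs => Ex k b fun y => (L xs.flatten y : ℝ) := by
    unfold Exs
    refine Exc_congr_dens (fun w _ => ?_) _ _
    unfold gth
    ring
  rw [h1, Exs_flatten s N fun x => Ex k b fun y => (L x y : ℝ)]

/-- derivative of `EN` in the tilt -/
lemma hasDerivAt_EN (hk : 2 ≤ k) (s : ℕ) (o : Fin k) (N b : ℕ) (hN : 1 ≤ N) (θ : ℝ) :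
    HasDerivAt (fun t => EN k s o t N b)
      (N * AV k s o θ 0 (N - 1) b (fun x₁ _ x₂ y =>
        (Ex k s fun r => (L (x₁ ++ r ++ x₂) y : ℝ)) - L (x₁ ++ List.replicate s o ++ x₂) y)) θ := by
  have hk0 : 0 < k := by omega
  have h1 := hasDerivAt_Exc s o N (fun xs => Ex k b fun y => (L xs.flatten y : ℝ)) θ
  have h2 : (∑ p ∈ Finset.range N, Exc k s (gth k s o θ) p fun l₁ =>
        Exc k s (gth k s o θ) (N - 1 - p) fun l₂ => Ex k s fun w =>
          dg k s o w * (fun xs : List (List (Fin k)) => Ex k b fun y => (L xs.flatten y : ℝ))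
            (l₁ ++ w :: l₂)) =
      N * AV k s o θ 0 (N - 1) b (fun x₁ _ x₂ y =>
        (Ex k s fun r => (L (x₁ ++ r ++ x₂) y : ℝ)) - L (x₁ ++ List.replicate s o ++ x₂) y) := by
    unfold AV
    have hN1 : N - 1 + 1 = N := by omega
    have hN2 : ((N - 1 : ℕ) : ℝ) + 1 = N := by exact_mod_cast hN1
    rw [hN1, hN2, mul_div_cancel₀ _ (by positivity : (N : ℝ) ≠ 0)]
    refine Finset.sum_congr rfl fun p _ => ?_
    refine Exc_congr fun l₁ _ => ?_
    rw [Exc_zero]
    refine Exc_congr fun l₂ _ => ?_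
    rw [dg_mean hk0 s o (fun w => Ex k b fun y => (L (l₁ ++ w :: l₂).flatten y : ℝ)), Ex_sub, Ex_comm]
    simp only [List.flatten_append, List.flatten_cons, List.append_assoc]
  rw [← h2]
  exact h1

lemma eventually_lin_le_pow (hk : 2 ≤ k) (A : ℝ) {ε : ℝ} (hε : 0 < ε) :
    ∀ᶠ s : ℕ in atTop, A * s ≤ ε * (k : ℝ) ^ s := by
  have hk1 : (1 : ℝ) < k := by exact_mod_cast hk
  have h := tendsto_pow_const_div_const_pow_of_one_lt 1 hk1
  have h2 := h.const_mul A
  rw [mul_zero] at h2
  filter_upwards [h2.eventually (gt_mem_nhds hε)] with s hs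
  have hks : (0 : ℝ) < (k : ℝ) ^ s := by positivity
  rw [pow_one, mul_div_assoc', div_lt_iff₀ hks] at hs
  exact hs.le

end Pool.Agent.LCSV57

namespace Pool.Agent.LCSV

open Pool.Agent.LCSE Pool.Agent.LCSV57

/-- **EQS** (equal service) -/
theorem stmt_EQS (hBB : Stmt_BB) : Stmt_EQS := by
  intro k C p q Pl Pu hW o ε hε
  have hk := hW.hk
  have hk0 : 0 < k := by omega
  have hC0 := hW.C0
  filter_upwards [hBB k hk hW.phi 1 one_pos, eventually_lin_le_pow hk (2 * C * (1 + k)) hε,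
    eventually_ge_atTop 1] with s hs hs2 hs1
  obtain ⟨hb1, hb2, _, _, _⟩ := hs
  have hks : (0 : ℝ) < (k : ℝ) ^ s := by positivity
  have hth : 0 < thm k s := by unfold thm; positivity
  have hN : 1 ≤ NN k s := Nat.one_le_pow _ _ hk0
  set N := NN k s with hNdef
  set b := bb k s with hbdef
  -- mean value theorem
  obtain ⟨θ, hθ, hθ2⟩ := exists_hasDerivAt_eq_slope (fun t => EN k s o t N b)
    (fun t => N * AV k s o t 0 (N - 1) b (fun x₁ _ x₂ y =>
        (Ex k s fun r => (L (x₁ ++ r ++ x₂) y : ℝ)) - L (x₁ ++ List.replicate s o ++ x₂) y))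
    hth (fun t _ => (hasDerivAt_EN hk s o N b hN t).continuousAt.continuousWithinAt)
    (fun t _ => hasDerivAt_EN hk s o N b hN t)
  refine ⟨θ, hθ.1.le, hθ.2.le, ?_⟩
  simp only [sub_zero] at hθ2
  -- upper bound at `thm`
  have hup : EN k s o (thm k s) N b ≤ p * ((N : ℝ) * s) + q * b := by
    have hd := isDens_gth_thm hk s o
    unfold EN
    refine Exc_le_const hd.nonneg hd.one fun l hl => ?_
    have := hW.A l.flatten b
    rw [hl.flatten_length] at this
    push_cast at this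
    exact this
  -- lower bound at `0`
  have hrho := hW.phi.rho_one
  have hb1' : (N : ℝ) * s ≤ b := by exact_mod_cast hb1
  have hflat : Flat k ((N : ℝ) * s) b := by
    rw [hW.phi.flat_iff _ _ (by positivity) (by positivity)]
    refine ⟨hb2, ?_⟩
    have : (0 : ℝ) ≤ b := by positivity
    nlinarith
  have hpq : p * ((N : ℝ) * s) + q * b = al k * ((N : ℝ) * s + b) :=
    hW.flat _ _ (by positivity) (by positivity) hflat
  have hlow : p * ((N : ℝ) * s) + q * b - C * √((N : ℝ) * s + b) ≤ EN k s o 0 N b := by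
    rw [EN_zero]
    have h1 := hW.DEF (N * s) b
    push_cast at h1
    have h2 : Phi k ((N : ℝ) * s) b = al k * ((N : ℝ) * s + b) := hflat
    linarith
  -- the square root
  have hrk : rho k < k := hW.phi.rho_lt
  have hNr : (N : ℝ) = ((k : ℝ) ^ s) ^ 4 := by
    rw [hNdef]; unfold NN; push_cast; rw [← pow_mul, mul_comm]
  have hsq : √((N : ℝ) * s + b) ≤ ((k : ℝ) ^ s) ^ 2 * ((1 + k) * s) := by
    rw [Real.sqrt_le_left (by positivity)]
    have h1 : (N : ℝ) * s + b ≤ (N : ℝ) * ((1 + k) * s) := by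
      have h2 : (b : ℝ) ≤ k * ((N : ℝ) * s) :=
        hb2.trans (mul_le_mul_of_nonneg_right hrk.le (by positivity))
      nlinarith
    have h3 : (1 : ℝ) ≤ (1 + k) * s := by
      have h4 : (1 : ℝ) ≤ s := by exact_mod_cast hs1
      have h5 : (0 : ℝ) ≤ k := by positivity
      nlinarith
    calc (N : ℝ) * s + b ≤ (N : ℝ) * ((1 + k) * s) := h1
      _ ≤ (N : ℝ) * (((1 + k) * s) * ((1 + k) * s)) := by
          apply mul_le_mul_of_nonneg_left _ (by positivity)
          exact le_mul_of_one_le_left (by positivity) h3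
      _ = (((k : ℝ) ^ s) ^ 2 * ((1 + k) * s)) ^ 2 := by rw [hNr]; ring
  set D := AV k s o θ 0 (N - 1) b (fun x₁ _ x₂ y =>
        (Ex k s fun r => (L (x₁ ++ r ++ x₂) y : ℝ)) - L (x₁ ++ List.replicate s o ++ x₂) y) with hD
  have h5 : N * D * thm k s ≤ C * (((k : ℝ) ^ s) ^ 2 * ((1 + k) * s)) := by
    rw [hθ2, div_mul_cancel₀ _ hth.ne']
    have h6 := mul_le_mul_of_nonneg_left hsq hC0.le
    linarith
  have h7 : N * D * thm k s = ((k : ℝ) ^ s) ^ 3 / 2 * D := by
    rw [hNr]; unfold thm; field_simp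
  rw [h7] at h5
  by_contra hcon
  push Not at hcon
  have h8 : ((k : ℝ) ^ s) ^ 3 / 2 * ε < ((k : ℝ) ^ s) ^ 3 / 2 * D :=
    mul_lt_mul_of_pos_left hcon (by positivity)
  have h9 : C * (((k : ℝ) ^ s) ^ 2 * ((1 + k) * s)) ≤ ((k : ℝ) ^ s) ^ 3 / 2 * ε := by
    have h10 : ((k : ℝ) ^ s) ^ 2 / 2 * (2 * C * (1 + k) * s) ≤
        ((k : ℝ) ^ s) ^ 2 / 2 * (ε * (k : ℝ) ^ s) :=
      mul_le_mul_of_nonneg_left hs2 (by positivity)
    calc C * (((k : ℝ) ^ s) ^ 2 * ((1 + k) * s)) = ((k : ℝ) ^ s) ^ 2 / 2 * (2 * C * (1 + k) * s) := by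
          ring
      _ ≤ ((k : ℝ) ^ s) ^ 2 / 2 * (ε * (k : ℝ) ^ s) := h10
      _ = ((k : ℝ) ^ s) ^ 3 / 2 * ε := by ring
  linarith

end Pool.Agent.LCSV
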