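import Pool.Agent.Work.MP_bec1e1_FIN_h57.EQS

/-! # FIN, block MEAN (mean gain of one more cell) -/

set_option autoImplicit false

open Filter Topology
open scoped BigOperators

namespace Pool.Agent.LCSV57

open Pool.Agent.LCSE Pool.Agent.LCSV

variable {k : ℕ}

lemma conc_mul {a : ℕ → ℝ} (ha : ∀ n, a (n + 2) + a n ≤ 2 * a (n + 1)) (N : ℕ) :
    ∀ H : ℕ, H ≤ N → (a (N + 1) - a N) * H ≤ a N - a (N - H) := by
  have hanti : Antitone fun n => a (n + 1) - a n := by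
    refine antitone_nat_of_succ_le fun n => ?_
    have := ha n
    show a (n + 2) - a (n + 1) ≤ a (n + 1) - a n
    linarith
  intro H
  induction H with
  | zero => intro _; simp
  | succ H ih =>
    intro hH
    have h1 := ih (by omega)
    have h2 : a (N + 1) - a N ≤ a (N - (H + 1) + 1) - a (N - (H + 1)) :=
      hanti (by omega : N - (H + 1) ≤ N)
    have h3 : N - (H + 1) + 1 = N - H := by omega
    rw [h3] at h2
    push_cast
    linarith

lemma eventually_le_pow (hk : 2 ≤ k) (A : ℝ) : ∀ᶠ s : ℕ in atTop, A ≤ (k : ℝ) ^ s := by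
  have hk1 : (1 : ℝ) < k := by exact_mod_cast hk
  exact (tendsto_pow_atTop_atTop_of_one_lt hk1).eventually_ge_atTop A

lemma eventually_le_pow_half (hk : 2 ≤ k) (A : ℝ) :
    ∀ᶠ s : ℕ in atTop, A ≤ (k : ℝ) ^ (s - s / 2) := by
  have hk1 : (1 : ℝ) < k := by exact_mod_cast hk
  have h2 : Tendsto (fun s : ℕ => s - s / 2) atTop atTop := by
    rw [tendsto_atTop]
    intro b
    filter_upwards [eventually_ge_atTop (2 * b)] with s hs
    omega
  exact ((tendsto_pow_atTop_atTop_of_one_lt hk1).comp h2).eventually_ge_atTop A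

/-- bounds for `EN` by the shape function -/
lemma EN_le_Phi (hT : Stmt_TILT) {C p q Pl Pu : ℝ} (hW : World k C p q Pl Pu) {s : ℕ} (o : Fin k)
    {θ : ℝ} (h0 : 0 ≤ θ) (h1 : θ ≤ thm k s) (N b : ℕ) :
    EN k s o θ N b ≤ Phi k (N * s) b + N * s / (k : ℝ) ^ s := by
  have h2 := (abs_le.mp (hT k s N b o θ hW.hk h0 h1)).2
  have h3 := hW.phi.F_le (N * s) b
  push_cast at h3
  linarith

lemma Phi_le_EN (hT : Stmt_TILT) {C p q Pl Pu : ℝ} (hW : World k C p q Pl Pu) {s : ℕ} (o : Fin k)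
    {θ : ℝ} (h0 : 0 ≤ θ) (h1 : θ ≤ thm k s) (N b : ℕ) :
    Phi k (N * s) b - C * √((N : ℝ) * s + b) - N * s / (k : ℝ) ^ s ≤ EN k s o θ N b := by
  have h2 := (abs_le.mp (hT k s N b o θ hW.hk h0 h1)).1
  have h3 := hW.DEF (N * s) b
  push_cast at h3
  linarith

lemma sqrt_le_aux {X A s : ℝ} (hX : 0 ≤ X) (hA : 1 ≤ A * s) {t : ℝ} (ht : t ≤ X ^ 4 * (A * s)) :
    √t ≤ X ^ 2 * (A * s) := by
  have h0 : 0 ≤ A * s := by linarith
  rw [Real.sqrt_le_left (by positivity)]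
  calc t ≤ X ^ 4 * (A * s) := ht
    _ ≤ X ^ 4 * ((A * s) * (A * s)) :=
        mul_le_mul_of_nonneg_left (le_mul_of_one_le_left h0 hA) (by positivity)
    _ = (X ^ 2 * (A * s)) ^ 2 := by ring

lemma NN_cast (k s : ℕ) : (NN k s : ℝ) = ((k : ℝ) ^ s) ^ 4 := by
  unfold NN; push_cast; rw [← pow_mul, mul_comm]

lemma HH_cast (k s : ℕ) : (HH k s : ℝ) = ((k : ℝ) ^ s) ^ 3 * (k : ℝ) ^ (s - s / 2) := by
  unfold HH; push_cast
  rw [← pow_mul, ← pow_add]
  congr 1
  omega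

end Pool.Agent.LCSV57

namespace Pool.Agent.LCSV

open Pool.Agent.LCSE Pool.Agent.LCSV57

/-- trivial cone -/
lemma mean_one (hBB : Stmt_BB) (hT : Stmt_TILT) (hCONC : Stmt_CONC) (k : ℕ) (C p q Pl Pu : ℝ)
    (hW : World k C p q Pl Pu) (hrho : rho k = 1) (ε : ℝ) (hε : 0 < ε) (J : ℕ) :
    ∀ᶠ s : ℕ in atTop, ∀ (o : Fin k) (θ : ℝ), 0 ≤ θ → θ ≤ thm k s →
      ∀ N : ℕ, NN k s ≤ N + J → N ≤ NN k s + J →
      EN k s o θ (N + 1) (bb k s) - EN k s o θ N (bb k s) ≤ (Pu + ε) * s := by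
  have hk := hW.hk
  have hk0 : 0 < k := by omega
  have hC0 := hW.C0
  have hPu : 0 < Pu := hW.pr.pos.trans_le hW.pr.le
  obtain ⟨u, hu0, hu1, hu⟩ := hW.pr.dHi hrho (ε / 2) (by positivity)
  filter_upwards [hBB k hk hW.phi 1 one_pos, eventually_ge_atTop 1,
    eventually_le_pow hk ((2 * J + Pu + ε + 4 + 3 * C) * 2 / (u * ε)),
    eventually_le_pow hk ((J + 1) / (1 - u))] with s hs hs1 hX1 hX2 o θ hθ0 hθ1 N hN1 hN2
  obtain ⟨_, _, _, hb, _⟩ := hs
  have hb := hb hrho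
  set M := NN k s with hM
  set X : ℝ := (k : ℝ) ^ s with hX
  have hXge : 1 ≤ X := one_le_pow₀ (by exact_mod_cast hk0)
  have hMX : (M : ℝ) = X ^ 4 := NN_cast k s
  rw [hb]
  set H := ⌊u * M⌋₊ with hH
  have hHle : (H : ℝ) ≤ u * M := Nat.floor_le (by positivity)
  have hHge : u * M - 1 ≤ H := by
    have := Nat.lt_floor_add_one (u * (M : ℝ))
    linarith
  have hN1' : (M : ℝ) ≤ N + J := by exact_mod_cast hN1
  have hN2' : (N : ℝ) ≤ M + J := by exact_mod_cast hN2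
  have h1u : 0 < 1 - u := by linarith
  have hXM : X ≤ M := by
    rw [hMX]
    calc X = X ^ 1 := (pow_one X).symm
      _ ≤ X ^ 4 := pow_le_pow_right₀ hXge (by norm_num)
  have hJ : (J : ℝ) + 1 ≤ (1 - u) * M := by
    rw [div_le_iff₀ h1u] at hX2
    nlinarith
  have hJM : (J : ℝ) ≤ M := by nlinarith
  have hHN : H ≤ N := by
    have : (H : ℝ) ≤ N := by nlinarith
    exact_mod_cast this
  have hconc := conc_mul (a := fun n => EN k s o θ n (M * s))
    (fun n => hCONC k s n (M * s) o θ hk hθ0 hθ1) N H hHN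
  have hup := EN_le_Phi hT hW (s := s) o hθ0 hθ1 N (M * s)
  have hlo := Phi_le_EN hT hW (s := s) o hθ0 hθ1 (N - H) (M * s)
  have hcast : ((N - H : ℕ) : ℝ) = N - H := by push_cast [hHN]; ring
  rw [hcast] at hlo
  push_cast at hup hlo
  have hs0 : (1 : ℝ) ≤ s := by exact_mod_cast hs1
  have hMs0 : (0 : ℝ) ≤ (M : ℝ) * s := by positivity
  -- `Phi` at `N`
  have hA : Phi k (N * s) (M * s) ≤ Phi k (M * s) (M * s) + J * s := by
    have h1 := hW.phi.lip (M * s) (M * s) (J * s) (by positivity) (by positivity) (by positivity)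
    refine (hW.phi.mono _ _ _ _ ?_ le_rfl).trans h1
    nlinarith
  have hB : Phi k ((1 - u) * (M * s)) (1 * (M * s)) ≤ Phi k (((N : ℝ) - H) * s) (M * s) + J * s := by
    have hNH : 0 ≤ (N : ℝ) - H := by rw [← hcast]; positivity
    have h1 := hW.phi.lip (((N : ℝ) - H) * s) (M * s) (J * s) (by positivity) (by positivity)
      (by positivity)
    refine (hW.phi.mono _ _ _ _ ?_ (by rw [one_mul])).trans h1
    nlinarith
  have hC1 : Phi k (M * s) (M * s) = M * s * Phi k 1 1 := by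
    have := hW.phi.hom (M * s) 1 1 hMs0 zero_le_one zero_le_one
    rwa [mul_one] at this
  have hC2 : Phi k ((1 - u) * (M * s)) (1 * (M * s)) = M * s * Phi k (1 - u) 1 := by
    have := hW.phi.hom (M * s) (1 - u) 1 hMs0 h1u.le zero_le_one
    rw [mul_comm (1 - u), one_mul]
    rwa [mul_one] at this
  have hD := mul_le_mul_of_nonneg_left hu hMs0
  -- errors
  have hX0 : 0 < X := by linarith
  have hE1 : (N : ℝ) * s / X ≤ 2 * X ^ 3 * s := by
    rw [div_le_iff₀ hX0]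
    have : (N : ℝ) ≤ 2 * X ^ 4 := by rw [← hMX]; linarith
    calc (N : ℝ) * s ≤ 2 * X ^ 4 * s := mul_le_mul_of_nonneg_right this (by linarith)
      _ = 2 * X ^ 3 * s * X := by ring
  have hE2 : ((N : ℝ) - H) * s / X ≤ 2 * X ^ 3 * s := by
    refine (div_le_div_of_nonneg_right ?_ hX0.le).trans hE1
    have : (0 : ℝ) ≤ H := by positivity
    nlinarith
  have hE3 : √(((N : ℝ) - H) * s + M * s) ≤ X ^ 2 * (3 * s) := by
    refine sqrt_le_aux hX0.le (by linarith) ?_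
    rw [← hMX]
    have : (0 : ℝ) ≤ H := by positivity
    nlinarith
  have hE4 : (2 * J + Pu + ε + 4 + 3 * C) * s * X ^ 3 ≤ X ^ 4 * (u * (ε / 2)) * s := by
    rw [div_le_iff₀ (by positivity)] at hX1
    have h1 : (2 * J + Pu + ε + 4 + 3 * C) ≤ X * (u * (ε / 2)) := by linarith
    have h2 : 0 ≤ s * X ^ 3 := by positivity
    calc (2 * J + Pu + ε + 4 + 3 * C) * s * X ^ 3 = (2 * J + Pu + ε + 4 + 3 * C) * (s * X ^ 3) := by ring
      _ ≤ X * (u * (ε / 2)) * (s * X ^ 3) := mul_le_mul_of_nonneg_right h1 h2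
      _ = X ^ 4 * (u * (ε / 2)) * s := by ring
  have hX3 : 1 ≤ X ^ 3 := one_le_pow₀ hXge
  have hX23 : X ^ 2 ≤ X ^ 3 := pow_le_pow_right₀ hXge (by norm_num)
  have hE5 : C * (X ^ 2 * (3 * s)) ≤ 3 * C * s * X ^ 3 := by
    have := mul_le_mul_of_nonneg_left hX23 (by positivity : (0:ℝ) ≤ 3 * C * s)
    linarith
  have hE6 : (2 * J + Pu + ε) * s ≤ (2 * J + Pu + ε) * s * X ^ 3 :=
    le_mul_of_one_le_right (by positivity) hX3
  have hE7 := mul_le_mul_of_nonneg_left hE3 hC0.le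
  by_contra hcon
  push Not at hcon
  -- `H` is positive
  have hHpos : 0 < (H : ℝ) := by
    have h1 : (2 : ℝ) ≤ u * M := by
      have h2 : 0 < X ^ 3 * s := by positivity
      have h3 : (4 : ℝ) * s * X ^ 3 ≤ X ^ 4 * (u * (ε / 2)) * s := by
        have : 0 ≤ (2 * J + Pu + ε + 3 * C) * s * X ^ 3 := by positivity
        nlinarith
      have h5 : ε * s * X ^ 3 ≤ X ^ 4 * (u * (ε / 2)) * s := by
        have : 0 ≤ (2 * J + Pu + 4 + 3 * C) * s * X ^ 3 := by positivity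
        nlinarith
      have h6 : ε / 2 * s * (2 * X ^ 3) ≤ ε / 2 * s * (u * M) := by
        rw [hMX]; nlinarith
      have h7 : 2 * X ^ 3 ≤ u * M := le_of_mul_le_mul_left h6 (by positivity)
      linarith
    linarith
  have h10 := mul_lt_mul_of_pos_right hcon hHpos
  have h11 : (Pu + ε) * s * (u * M - 1) ≤ (Pu + ε) * s * H :=
    mul_le_mul_of_nonneg_left hHge (by positivity)
  have h12 : (Pu + ε / 2) * u * (M * s) + (2 * J + Pu + ε + 4 + 3 * C) * s * X ^ 3 ≤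
      (Pu + ε) * s * (u * M) := by
    have h13 : X ^ 4 * (u * (ε / 2)) * s = ε / 2 * u * (M * s) := by rw [hMX]; ring
    rw [h13] at hE4
    nlinarith
  have h14 : (2 * J + Pu + ε + 4 + 3 * C) * s * X ^ 3 =
      (2 * J + Pu + ε) * s * X ^ 3 + 4 * s * X ^ 3 + 3 * C * s * X ^ 3 := by ring
  rw [hC2] at hB
  rw [hC1] at hA
  linarith

/-- nontrivial cone -/
lemma mean_two (hBB : Stmt_BB) (hT : Stmt_TILT) (hCONC : Stmt_CONC) (k : ℕ) (C p q Pl Pu : ℝ)
    (hW : World k C p q Pl Pu) (hrho : 1 < rho k) (ε : ℝ) (hε : 0 < ε) (J : ℕ) :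
    ∀ᶠ s : ℕ in atTop, ∀ (o : Fin k) (θ : ℝ), 0 ≤ θ → θ ≤ thm k s →
      ∀ N : ℕ, NN k s ≤ N + J → N ≤ NN k s + J →
      EN k s o θ (N + 1) (bb k s) - EN k s o θ N (bb k s) ≤ (Pu + ε) * s := by
  have hk := hW.hk
  have hk0 : 0 < k := by omega
  have hC0 := hW.C0
  obtain ⟨-, hPu⟩ := hW.pr.cone hrho
  have hrk : rho k < k := hW.phi.rho_lt
  filter_upwards [hBB k hk hW.phi 1 one_pos, eventually_ge_atTop 1,
    eventually_le_pow_half hk ((4 + C * (2 + k)) / ε + 2 * J + 1),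
    eventually_le_pow hk J] with s hs hs1 hY hXJ o θ hθ0 hθ1 N hN1 hN2
  obtain ⟨hb1, hb2, _, _, hb3⟩ := hs
  have hb3 := hb3 hrho
  set M := NN k s with hM
  set b := bb k s with hb
  set X : ℝ := (k : ℝ) ^ s with hX
  set Y : ℝ := (k : ℝ) ^ (s - s / 2) with hYdef
  have hXge : 1 ≤ X := one_le_pow₀ (by exact_mod_cast hk0)
  have hX0 : 0 < X := by linarith
  have hMX : (M : ℝ) = X ^ 4 := NN_cast k s
  have hHX : (HH k s : ℝ) = X ^ 3 * Y := HH_cast k s
  have hX3 : 1 ≤ X ^ 3 := one_le_pow₀ hXge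
  have hJ0 : (0 : ℝ) ≤ J := by positivity
  have hdiv : 0 ≤ (4 + C * (2 + k)) / ε := by positivity
  have hYJ : 2 * (J : ℝ) + 1 ≤ Y := by linarith
  have hHH2J : 2 * (J : ℝ) + 1 ≤ HH k s := by
    rw [hHX]; nlinarith
  have hHH2J' : 2 * J + 1 ≤ HH k s := by exact_mod_cast hHH2J
  have hHHM : HH k s ≤ M := by
    rw [hM]; unfold HH NN
    exact Nat.pow_le_pow_right hk0 (by omega)
  set H := HH k s - J with hH
  have hHcast : (H : ℝ) = HH k s - J := by
    rw [hH]; push_cast [show J ≤ HH k s by omega]; ring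
  have hHN : H ≤ N := by omega
  have hconc := conc_mul (a := fun n => EN k s o θ n b)
    (fun n => hCONC k s n b o θ hk hθ0 hθ1) N H hHN
  have hup := EN_le_Phi hT hW (s := s) o hθ0 hθ1 N b
  have hlo := Phi_le_EN hT hW (s := s) o hθ0 hθ1 (N - H) b
  have hcast : ((N - H : ℕ) : ℝ) = N - H := by push_cast [hHN]; ring
  rw [hcast] at hlo
  have hs0 : (1 : ℝ) ≤ s := by exact_mod_cast hs1
  have hN1' : (M : ℝ) ≤ N + J := by exact_mod_cast hN1
  have hN2' : (N : ℝ) ≤ M + J := by exact_mod_cast hN2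
  have hb1' : (M : ℝ) * s ≤ b := by exact_mod_cast hb1
  have hrho0 : 0 < rho k := by linarith
  have hNH0 : 0 ≤ (N : ℝ) - H := by rw [← hcast]; positivity
  have hline := hW.phi.line (N * s) b (by positivity) (by positivity)
  have hflat : Phi k (((N : ℝ) - H) * s) b = al k * (((N : ℝ) - H) * s + b) := by
    have : Flat k (((N : ℝ) - H) * s) b := by
      rw [hW.phi.flat_iff _ _ (by positivity) (by positivity)]
      constructor
      · refine hb3.trans (mul_le_mul_of_nonneg_left ?_ hrho0.le)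
        refine mul_le_mul_of_nonneg_right ?_ (by linarith)
        rw [hHcast]; linarith
      · have h1 : ((N : ℝ) - H) * s ≤ M * s := by
          refine mul_le_mul_of_nonneg_right ?_ (by linarith)
          rw [hHcast]; linarith
        have h2 : (0 : ℝ) ≤ b := by positivity
        nlinarith
    exact this
  rw [hflat] at hlo
  -- errors
  have hXM : X ≤ M := by
    rw [hMX]
    calc X = X ^ 1 := (pow_one X).symm
      _ ≤ X ^ 4 := pow_le_pow_right₀ hXge (by norm_num)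
  have hJM : (J : ℝ) ≤ M := hXJ.trans hXM
  have hE1 : (N : ℝ) * s / X ≤ 2 * X ^ 3 * s := by
    rw [div_le_iff₀ hX0]
    have : (N : ℝ) ≤ 2 * X ^ 4 := by rw [← hMX]; linarith
    calc (N : ℝ) * s ≤ 2 * X ^ 4 * s := mul_le_mul_of_nonneg_right this (by linarith)
      _ = 2 * X ^ 3 * s * X := by ring
  have hH0 : (0 : ℝ) ≤ H := by positivity
  have hE2 : ((N : ℝ) - H) * s / X ≤ 2 * X ^ 3 * s := by
    refine (div_le_div_of_nonneg_right ?_ hX0.le).trans hE1
    nlinarith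
  have hbk : (b : ℝ) ≤ k * (M * s) :=
    hb2.trans (mul_le_mul_of_nonneg_right hrk.le (by positivity))
  have hE3 : √(((N : ℝ) - H) * s + b) ≤ X ^ 2 * ((2 + k) * s) := by
    refine sqrt_le_aux hX0.le ?_ ?_
    · have : (0 : ℝ) ≤ k := by positivity
      nlinarith
    · rw [← hMX]
      nlinarith
  have hX23 : X ^ 2 ≤ X ^ 3 := pow_le_pow_right₀ hXge (by norm_num)
  have hE5 : C * (X ^ 2 * ((2 + k) * s)) ≤ C * (2 + k) * s * X ^ 3 := by
    have := mul_le_mul_of_nonneg_left hX23 (by positivity : (0:ℝ) ≤ C * (2 + k) * s)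
    linarith
  have hE7 := mul_le_mul_of_nonneg_left hE3 hC0.le
  have hHge : X ^ 3 * (Y - J) ≤ H := by
    rw [hHcast, hHX]
    have : (J : ℝ) ≤ X ^ 3 * J := le_mul_of_one_le_left hJ0 hX3
    linarith
  have hYge : 4 + C * (2 + k) < ε * (Y - J) := by
    have h1 : (4 + C * (2 + k)) / ε < Y - J := by linarith
    rw [div_lt_iff₀ hε] at h1
    linarith
  have hE8 : (4 + C * (2 + k)) * s * X ^ 3 ≤ ε * s * H := by
    calc (4 + C * (2 + k)) * s * X ^ 3 = (4 + C * (2 + k)) * (s * X ^ 3) := by ring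
      _ ≤ ε * (Y - J) * (s * X ^ 3) := mul_le_mul_of_nonneg_right hYge.le (by positivity)
      _ = ε * s * (X ^ 3 * (Y - J)) := by ring
      _ ≤ ε * s * H := mul_le_mul_of_nonneg_left hHge (by positivity)
  have hHpos : 0 < (H : ℝ) := by rw [hHcast]; linarith
  by_contra hcon
  push Not at hcon
  have h10 := mul_lt_mul_of_pos_right hcon hHpos
  rw [hPu] at h10
  linarith

/-- **MEAN** -/
theorem stmt_MEAN (hBB : Stmt_BB) (hT : Stmt_TILT) (hCONC : Stmt_CONC) : Stmt_MEAN := by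
  intro k C p q Pl Pu hW ε hε J
  rcases eq_or_lt_of_le hW.phi.rho_one with h | h
  · exact mean_one hBB hT hCONC k C p q Pl Pu hW h.symm ε hε J
  · exact mean_two hBB hT hCONC k C p q Pl Pu hW h ε hε J

end Pool.Agent.LCSV
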